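import Pool.Agent.Run7.h373.CK.Sel

/-!
# Piece SEL: the selection of the blocks
-/

set_option autoImplicit false

open Filter Topology

namespace Pool.Agent.Run7.h593.CK

open Pool.Agent.Run7.h373.CK

/-- the second coordinate of the point with the parameter `u` -/
def bb (u : ℚ) : ℚ := (1 - 4 * u - 3 * u ^ 2) / (1 + u + u ^ 2)

/-- the first coordinate -/
def aa (u : ℚ) : ℚ := (2 + 6 * u + u ^ 2) / (1 + u + u ^ 2)

/-- the value -/
def LL (u : ℚ) : ℚ := lam (aa u) (bb u)

theorem D_pos (u : ℚ) : 0 < 1 + u + u ^ 2 := by nlinarith [sq_nonneg (u + 1 / 2)]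

theorem conic (u : ℚ) : aa u ^ 2 + aa u * bb u + bb u ^ 2 = 7 := by
  have h := (D_pos u).ne'
  unfold aa bb
  field_simp
  ring

theorem aa_pos {u : ℚ} (h0 : 0 < u) : 0 < aa u := by
  have h := D_pos u
  unfold aa
  positivity

theorem bb_pos {u : ℚ} (h0 : 0 < u) (h1 : u < 1 / 5) : 0 < bb u := by
  have h := D_pos u
  unfold bb
  apply div_pos _ h
  nlinarith

theorem bb_lt {u : ℚ} (h0 : 0 < u) : bb u < 1 := by
  have h := D_pos u
  unfold bb
  rw [div_lt_one h]
  nlinarith

theorem bb_anti {u v : ℚ} (h0 : 0 < u) (h1 : u < v) (h2 : v < 1 / 5) : bb v < bb u := by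
  have hu := D_pos u
  have hv := D_pos v
  unfold bb
  rw [div_lt_div_iff₀ hv hu]
  have h3 : 0 < (v - u) * (5 + 4 * (u + v) - u * v) := by
    apply mul_pos (by linarith)
    nlinarith
  nlinarith

theorem LL_eq (u : ℚ) : LL u = (bb u * (7 - bb u ^ 2)) ^ 2 := by
  have h := conic u
  unfold LL lam
  congr 1
  linear_combination (bb u) * h

theorem LL_anti {u v : ℚ} (h0 : 0 < u) (h1 : u < v) (h2 : v < 1 / 5) : LL v < LL u := by
  rw [LL_eq, LL_eq]
  have h3 := bb_anti h0 h1 h2
  have h4 := bb_pos (h0.trans h1) h2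
  have h5 := bb_lt h0
  have h6 : bb v * (7 - bb v ^ 2) < bb u * (7 - bb u ^ 2) := by
    have : 0 < (bb u - bb v) * (7 - (bb u ^ 2 + bb u * bb v + bb v ^ 2)) := by
      apply mul_pos (by linarith)
      nlinarith
    nlinarith
  have h7 : 0 < bb v * (7 - bb v ^ 2) := by
    apply mul_pos h4
    nlinarith
  exact pow_lt_pow_left₀ h6 h7.le two_ne_zero

theorem LL_pos {u : ℚ} (h0 : 0 < u) (h1 : u < 1 / 5) : 0 < LL u := by
  rw [LL_eq]
  have h4 := bb_pos h0 h1
  have h5 := bb_lt h0
  have h7 : 0 < bb u * (7 - bb u ^ 2) := by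
    apply mul_pos h4
    nlinarith
  positivity

theorem LL_lt_iff {u v : ℚ} (hu0 : 0 < u) (hu : u < 1 / 5) (hv0 : 0 < v) (hv : v < 1 / 5) :
    LL v < LL u ↔ u < v := by
  constructor
  · intro h
    by_contra h1
    rcases lt_or_eq_of_le (not_lt.1 h1) with h2 | h2
    · exact lt_asymm h (LL_anti hv0 h2 hu)
    · rw [h2] at h
      exact lt_irrefl _ h
  · intro h
    exact LL_anti hu0 h hv

theorem LL_cont (u : ℚ) : ContinuousAt LL u := by
  have h1 : LL = fun u => (bb u * (7 - bb u ^ 2)) ^ 2 := funext LL_eq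
  have h2 : ContinuousAt bb u := by
    unfold bb
    apply ContinuousAt.div
    · fun_prop
    · fun_prop
    · exact (D_pos u).ne'
  rw [h1]
  fun_prop

theorem sel_of {f : ℕ} (U s : Fin f → ℚ) (hinj : Function.Injective U) (i0 : Fin f)
    (hi0 : U i0 = 1 / 9)
    (hs : ∀ i, (s i = -1 ∧ 0 < U i ∧ U i ≤ 1 / 9) ∨ (s i = 1 ∧ U i = 2 / 11))
    (hprod : ∏ i, s i = 1) : Nonempty (Sel f) := by
  have hU0 : ∀ i, 0 < U i := by
    intro i
    rcases hs i with h | h
    · exact h.2.1
    · rw [h.2]; norm_num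
  have hU5 : ∀ i, U i < 1 / 5 := by
    intro i
    rcases hs i with h | h
    · linarith [h.2.2]
    · rw [h.2]; norm_num
  set P : ℚ → ℚ := fun T => ∏ i, (T - LL (U i)) with hP
  have hPpos : ∀ u, 1 / 9 < u → u < 2 / 11 → 0 < P (LL u) := by
    intro u h1 h2
    have h3 : P (LL u) = ∏ i, (s i * (LL u - LL (U i))) := by
      rw [Finset.prod_mul_distrib, hprod, one_mul]
    rw [h3]
    apply Finset.prod_pos
    intro i _
    rcases hs i with h | h
    · rw [h.1]
      have : LL u < LL (U i) := LL_anti h.2.1 (by linarith) (by linarith)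
      linarith
    · rw [h.1, h.2]
      have : LL (2 / 11) < LL u := LL_anti (by linarith) h2 (by norm_num)
      linarith
  have hPz : P (LL (1 / 9)) = 0 := by
    apply Finset.prod_eq_zero (Finset.mem_univ i0)
    rw [hi0, sub_self]
  have hPc : Tendsto (fun u => P (LL u)) (𝓝[>] (1 / 9)) (𝓝 0) := by
    have h1 : ContinuousAt (fun u => P (LL u)) (1 / 9) := by
      have h2 : Continuous P := by
        rw [hP]
        fun_prop
      exact h2.continuousAt.comp (LL_cont _)
    have h3 := h1.tendsto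
    rw [hPz] at h3
    exact h3.mono_left nhdsWithin_le_nhds
  set m0 : ℚ := LL (1 / 6) with hm0
  set lo : ℚ := LL (2 / 11) with hlo
  set l0 : ℚ := LL (1 / 9) with hl0
  have hlo0 : 0 < lo := LL_pos (by norm_num) (by norm_num)
  have hlom : lo < m0 := LL_anti (by norm_num) (by norm_num) (by norm_num)
  have hml : m0 < l0 := LL_anti (by norm_num) (by norm_num) (by norm_num)
  have hPm : 0 < P m0 := hPpos _ (by norm_num) (by norm_num)
  set η : ℚ := min (P m0 / 2) ((m0 - lo) * P m0 / (2 * (l0 - m0))) with hη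
  have hη0 : 0 < η := by
    apply lt_min (by linarith)
    apply div_pos (mul_pos (by linarith) hPm) (by linarith)
  have hev : ∀ᶠ u in 𝓝[>] (1 / 9 : ℚ), P (LL u) < η := hPc.eventually_lt_const hη0
  have hev2 : ∀ᶠ u in 𝓝[>] (1 / 9 : ℚ), u ∈ Set.Ioo (1 / 9 : ℚ) (1 / 6) :=
    Ioo_mem_nhdsGT (by norm_num)
  obtain ⟨u, hu1, hu2, hu3⟩ := (hev.and hev2).exists
  set m1 : ℚ := LL u with hm1
  have hm01 : m0 < m1 := LL_anti (by linarith) hu3 (by norm_num)
  have hm1l : m1 < l0 := LL_anti (by norm_num) hu2 (by linarith)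
  have hP1 : 0 < P m1 := hPpos u hu2 (by linarith)
  have hP12 : P m1 < P m0 / 2 := hu1.trans_le (min_le_left _ _)
  have hP13 : P m1 < (m0 - lo) * P m0 / (2 * (l0 - m0)) := hu1.trans_le (min_le_right _ _)
  have hD : 0 < P m0 - P m1 := by linarith
  have hkey : (m1 - m0) * P m1 < (m0 - lo) * (P m0 - P m1) := by
    have h1 : (m1 - m0) * P m1 < (l0 - m0) * ((m0 - lo) * P m0 / (2 * (l0 - m0))) := by
      apply mul_lt_mul'' (by linarith) hP13 (by linarith) hP1.le
    have h2 : (l0 - m0) * ((m0 - lo) * P m0 / (2 * (l0 - m0))) = (m0 - lo) * (P m0 / 2) := by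
      have : l0 - m0 ≠ 0 := by linarith
      field_simp
    rw [h2] at h1
    have h3 : (m0 - lo) * (P m0 / 2) ≤ (m0 - lo) * (P m0 - P m1) := by
      apply mul_le_mul_of_nonneg_left _ (by linarith)
      linarith
    linarith
  set ρ : ℚ := (m0 * P m0 - m1 * P m1) / (P m0 - P m1) with hρ
  have hρD : ρ * (P m0 - P m1) = m0 * P m0 - m1 * P m1 := div_mul_cancel₀ _ hD.ne'
  have hρm : ρ < m0 := by
    rw [hρ, div_lt_iff₀ hD]
    nlinarith [mul_pos (sub_pos.2 hm01) hP1]
  have hρlo : lo < ρ := by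
    rw [hρ, lt_div_iff₀ hD]
    nlinarith
  let V : Fin f ⊕ Fin 2 → ℚ := Sum.elim U ![1 / 6, u]
  have hV0 : ∀ i, 0 < V i := by
    rintro (i | i)
    · exact hU0 i
    · fin_cases i
      · show (0 : ℚ) < 1 / 6
        norm_num
      · show (0 : ℚ) < u
        linarith
  have hV5 : ∀ i, V i < 1 / 5 := by
    rintro (i | i)
    · exact hU5 i
    · fin_cases i
      · show (1 / 6 : ℚ) < 1 / 5
        norm_num
      · show (u : ℚ) < 1 / 5
        linarith
  have hUne : ∀ i (v : ℚ), 1 / 9 < v → v < 2 / 11 → U i ≠ v := by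
    intro i v h1 h2 h3
    rcases hs i with h | h
    · linarith [h.2.2]
    · linarith [h.2]
  have hVinj : Function.Injective V := by
    rintro (i | i) (j | j) h
    · exact congrArg Sum.inl (hinj h)
    · exfalso
      fin_cases j
      · exact hUne i (1 / 6) (by norm_num) (by norm_num) h
      · exact hUne i u hu2 (by linarith) h
    · exfalso
      fin_cases i
      · exact hUne j (1 / 6) (by norm_num) (by norm_num) h.symm
      · exact hUne j u hu2 (by linarith) h.symm
    · fin_cases i <;> fin_cases j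
      · rfl
      · exfalso
        have : (1 / 6 : ℚ) = u := h
        linarith
      · exfalso
        have : u = (1 / 6 : ℚ) := h
        linarith
      · rfl
  refine ⟨{ a := fun i => aa (V i), b := fun i => bb (V i), ρ := ρ,
            ha := fun i => aa_pos (hV0 i), hb := fun i => bb_pos (hV0 i) (hV5 i),
            hb1 := fun i => bb_lt (hV0 i), hab := fun i => conic (V i),
            hL := ?_, hρ0 := hlo0.trans hρlo, hρL := ?_, hρ := hρm, hμ := hm01, hgap := ?_,
            htop := ⟨i0, ?_⟩, hval := ?_, hpos := ?_ }⟩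
  · intro i j h
    apply hVinj
    have h' : LL (V i) = LL (V j) := h
    by_contra hne
    rcases lt_or_gt_of_ne hne with h1 | h1
    · have := LL_anti (hV0 i) h1 (hV5 j)
      linarith
    · have := LL_anti (hV0 j) h1 (hV5 i)
      linarith
  · intro i h
    have h' : ρ = LL (U i) := h
    rcases hs i with h1 | h1
    · have : m0 < LL (U i) := LL_anti h1.2.1 (by linarith) (by norm_num)
      linarith
    · rw [h1.2] at h'
      linarith
  · intro i
    show LL (U i) < m0 ∨ m1 < LL (U i)
    rcases hs i with h1 | h1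
    · right
      exact LL_anti h1.2.1 (by linarith) (by linarith)
    · left
      rw [h1.2]
      exact hlom
  · show m1 < LL (U i0)
    rw [hi0]
    exact hm1l
  · show (m0 - ρ) * P m0 = (m1 - ρ) * P m1
    linear_combination -hρD
  · show 0 < (m0 - ρ) * P m0
    exact mul_pos (by linarith) hPm

theorem t_SEL : S_SEL := by
  intro f hf
  rcases Nat.even_or_odd f with he | ho
  · refine sel_of (fun i : Fin f => 1 / (9 + (i : ℕ) : ℚ)) (fun _ => -1) ?_ ⟨0, by omega⟩
      (by simp) ?_ ?_
    · intro i j h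
      have h' : (1 / (9 + (i : ℕ) : ℚ)) = 1 / (9 + (j : ℕ) : ℚ) := h
      have hi : (0 : ℚ) < 9 + (i : ℕ) := by positivity
      have hj : (0 : ℚ) < 9 + (j : ℕ) := by positivity
      rw [div_eq_div_iff hi.ne' hj.ne'] at h'
      have h2 : ((i : ℕ) : ℚ) = (j : ℕ) := by linarith
      exact Fin.ext (by exact_mod_cast h2)
    · intro i
      left
      refine ⟨rfl, by positivity, ?_⟩
      apply one_div_le_one_div_of_le (by norm_num)
      linarith [(Nat.cast_nonneg (i : ℕ) : (0 : ℚ) ≤ (i : ℕ))]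
    · rw [Finset.prod_const, Finset.card_univ, Fintype.card_fin]
      exact he.neg_one_pow
  · obtain ⟨g, rfl⟩ : ∃ g, f = g + 1 := ⟨f - 1, by omega⟩
    have hg : Even g := by
      rcases Nat.even_or_odd g with h | h
      · exact h
      · exfalso
        exact (Nat.not_even_iff_odd.2 ho) h.add_one
    refine sel_of (fun i : Fin (g + 1) => if (i : ℕ) = g then 2 / 11 else 1 / (9 + (i : ℕ) : ℚ))
      (fun i => if (i : ℕ) = g then 1 else -1) ?_ ⟨0, by omega⟩ ?_ ?_ ?_
    · intro i j h
      have h' : (if (i : ℕ) = g then (2 / 11 : ℚ) else 1 / (9 + (i : ℕ) : ℚ)) =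
        if (j : ℕ) = g then 2 / 11 else 1 / (9 + (j : ℕ) : ℚ) := h
      have hi : (0 : ℚ) < 9 + (i : ℕ) := by positivity
      have hj : (0 : ℚ) < 9 + (j : ℕ) := by positivity
      have hb : ∀ k : ℕ, (1 / (9 + k : ℚ)) ≤ 1 / 9 := fun k =>
        one_div_le_one_div_of_le (by norm_num) (by linarith [(Nat.cast_nonneg k : (0 : ℚ) ≤ k)])
      by_cases h1 : (i : ℕ) = g
      · by_cases h2 : (j : ℕ) = g
        · exact Fin.ext (h1.trans h2.symm)
        · rw [if_pos h1, if_neg h2] at h'
          have := hb j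
          norm_num at *
          linarith
      · by_cases h2 : (j : ℕ) = g
        · rw [if_neg h1, if_pos h2] at h'
          have := hb i
          norm_num at *
          linarith
        · rw [if_neg h1, if_neg h2, div_eq_div_iff hi.ne' hj.ne'] at h'
          have h3 : ((i : ℕ) : ℚ) = (j : ℕ) := by linarith
          exact Fin.ext (by exact_mod_cast h3)
    · show (if (0 : ℕ) = g then (2 / 11 : ℚ) else 1 / (9 + ((0 : ℕ) : ℚ))) = 1 / 9
      rw [if_neg (by omega)]
      norm_num
    · intro i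
      by_cases h1 : (i : ℕ) = g
      · right
        exact ⟨if_pos h1, if_pos h1⟩
      · left
        simp only [if_neg h1]
        refine ⟨trivial, by positivity, ?_⟩
        apply one_div_le_one_div_of_le (by norm_num)
        linarith [(Nat.cast_nonneg (i : ℕ) : (0 : ℚ) ≤ (i : ℕ))]
    · rw [Fin.prod_univ_castSucc]
      have h1 : ∀ i : Fin g, (if ((Fin.castSucc i : Fin (g + 1)) : ℕ) = g then (1 : ℚ) else -1) =
          -1 := by
        intro i
        rw [if_neg]
        rw [Fin.val_castSucc]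
        exact i.2.ne
      rw [Finset.prod_congr rfl fun i _ => h1 i, Finset.prod_const, Finset.card_univ,
        Fintype.card_fin, hg.neg_one_pow, if_pos (Fin.val_last g), one_mul]

end Pool.Agent.Run7.h593.CK
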